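import Pool.Agent.Helper99_Eng3.Stmts

/-!
# Squad ENG 3, module OT8 (and OTWO)
-/

set_option autoImplicit false

namespace Pool.Agent.Eng.H56

open Matrix

def uy : (Matrix (Fin 3) (Fin 3) (ZMod 2))ˣ :=
  ⟨!![0, 0, 1; 0, 1, 0; 1, 1, 0], !![0, 1, 1; 0, 1, 0; 1, 0, 0], by decide +kernel, by decide +kernel⟩
def ua : (Matrix (Fin 3) (Fin 3) (ZMod 2))ˣ :=
  ⟨!![0, 0, 1; 0, 1, 0; 1, 0, 0], !![0, 0, 1; 0, 1, 0; 1, 0, 0], by decide +kernel, by decide +kernel⟩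
def ub : (Matrix (Fin 3) (Fin 3) (ZMod 2))ˣ :=
  ⟨!![0, 0, 1; 1, 0, 1; 0, 1, 0], !![1, 1, 0; 0, 0, 1; 1, 0, 0], by decide +kernel, by decide +kernel⟩
def e0 : (Matrix (Fin 3) (Fin 3) (ZMod 2))ˣ :=
  ⟨!![0, 0, 1; 0, 1, 1; 1, 0, 0], !![0, 0, 1; 1, 1, 0; 1, 0, 0], by decide +kernel, by decide +kernel⟩
def e1 : (Matrix (Fin 3) (Fin 3) (ZMod 2))ˣ :=
  ⟨!![1, 1, 0; 0, 0, 1; 1, 0, 1], !![0, 1, 1; 1, 1, 1; 0, 1, 0], by decide +kernel, by decide +kernel⟩
def e2 : (Matrix (Fin 3) (Fin 3) (ZMod 2))ˣ :=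
  ⟨!![1, 0, 1; 1, 0, 0; 1, 1, 0], !![0, 1, 0; 0, 1, 1; 1, 1, 0], by decide +kernel, by decide +kernel⟩
def e3 : (Matrix (Fin 3) (Fin 3) (ZMod 2))ˣ :=
  ⟨!![0, 0, 1; 1, 1, 0; 0, 1, 1], !![1, 1, 1; 1, 0, 1; 1, 0, 0], by decide +kernel, by decide +kernel⟩
def e4 : (Matrix (Fin 3) (Fin 3) (ZMod 2))ˣ :=
  ⟨!![0, 1, 0; 0, 0, 1; 1, 1, 1], !![1, 1, 1; 1, 0, 0; 0, 1, 0], by decide +kernel, by decide +kernel⟩
def e5 : (Matrix (Fin 3) (Fin 3) (ZMod 2))ˣ :=
  ⟨!![1, 1, 1; 0, 1, 1; 1, 1, 0], !![1, 1, 0; 1, 1, 1; 1, 0, 1], by decide +kernel, by decide +kernel⟩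
def e6 : (Matrix (Fin 3) (Fin 3) (ZMod 2))ˣ :=
  ⟨!![0, 1, 1; 1, 1, 0; 0, 1, 0], !![0, 1, 1; 0, 0, 1; 1, 0, 1], by decide +kernel, by decide +kernel⟩
def e7 : (Matrix (Fin 3) (Fin 3) (ZMod 2))ˣ :=
  ⟨!![1, 1, 1; 1, 0, 0; 1, 0, 1], !![0, 1, 0; 1, 0, 1; 0, 1, 1], by decide +kernel, by decide +kernel⟩

theorem s0 : eng uy e0 = e1 := by decide +kernel
theorem s1 : eng uy e1 = e2 := by decide +kernel
theorem s2 : eng uy e2 = e3 := by decide +kernel
theorem s3 : eng uy e3 = e4 := by decide +kernel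
theorem s4 : eng uy e4 = e5 := by decide +kernel
theorem s5 : eng uy e5 = e6 := by decide +kernel
theorem s6 : eng uy e6 = e7 := by decide +kernel
theorem s7 : eng uy e7 = e0 := by decide +kernel
theorem e4ne : e4 ≠ e0 := by decide +kernel
theorem uyc : uy = ua * ub * ua⁻¹ * ub⁻¹ := by decide +kernel

theorem per_gen {G : Type} (f : G → G) (a0 a1 a2 a3 a4 a5 a6 a7 : G) (t0 : f a0 = a1)
    (t1 : f a1 = a2) (t2 : f a2 = a3) (t3 : f a3 = a4) (t4 : f a4 = a5) (t5 : f a5 = a6)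
    (t6 : f a6 = a7) (t7 : f a7 = a0) (hne : a4 ≠ a0) {r d : ℕ}
    (h : f^[r + d] a0 = f^[r] a0) : 8 ∣ d := by
  have p4 : f^[4] a0 = a4 := by
    simp only [Function.iterate_succ, Function.iterate_zero, Function.comp_apply, id_eq, t0, t1,
      t2, t3]
  have p8 : Function.IsPeriodicPt f 8 a0 := by
    change f^[8] a0 = a0
    simp only [Function.iterate_succ, Function.iterate_zero, Function.comp_apply, id_eq, t0, t1,
      t2, t3, t4, t5, t6, t7]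
  have h8 : f^[8 * r] a0 = a0 := p8.mul_const r
  have h1 : f^[7 * r] (f^[r + d] a0) = f^[7 * r] (f^[r] a0) := by rw [h]
  rw [← Function.iterate_add_apply, ← Function.iterate_add_apply] at h1
  have e1 : 7 * r + (r + d) = d + 8 * r := by ring
  have e2 : 7 * r + r = 8 * r := by ring
  rw [e1, e2, Function.iterate_add_apply, h8] at h1
  have hd : Function.IsPeriodicPt f d a0 := h1
  have h1 : Function.minimalPeriod f a0 ∣ 8 := p8.minimalPeriod_dvd
  have h2 : ¬ Function.minimalPeriod f a0 ∣ 4 := by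
    intro h4
    have : Function.IsPeriodicPt f 4 a0 :=
      (Function.isPeriodicPt_minimalPeriod f a0).trans_dvd h4
    exact hne (p4.symm.trans this)
  have h3 : Function.minimalPeriod f a0 = 8 := by
    have h5 : Function.minimalPeriod f a0 ∣ 2 ^ 3 := h1
    obtain ⟨k, hk, hk'⟩ := (Nat.dvd_prime_pow Nat.prime_two).1 h5
    rw [hk'] at h2 ⊢
    interval_cases k
    · exact absurd (by norm_num) h2
    · exact absurd (by norm_num) h2
    · exact absurd (by norm_num) h2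
    · norm_num
  rw [← h3]
  exact hd.minimalPeriod_dvd

theorem per_main {r d : ℕ} (h : (eng uy)^[r + d] e0 = (eng uy)^[r] e0) : 8 ∣ d :=
  per_gen (eng uy) e0 e1 e2 e3 e4 e5 e6 e7 s0 s1 s2 s3 s4 s5 s6 s7 e4ne h

section
variable {F : Type} [Field F]

/-- The action of `GL(3,F)` on the hyperbolic space. -/
def hy (A : (Matrix (Fin 3) (Fin 3) F)ˣ) :
    ((Fin 3 → F) × (Fin 3 → F)) ≃ₗ[F] ((Fin 3 → F) × (Fin 3 → F)) where
  toFun p := (A.val *ᵥ p.1, (A⁻¹).valᵀ *ᵥ p.2)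
  invFun p := ((A⁻¹).val *ᵥ p.1, A.valᵀ *ᵥ p.2)
  map_add' p q := by
    ext <;> simp [mulVec_add]
  map_smul' c p := by
    ext <;> simp [mulVec_smul]
  left_inv p := by
    ext i
    · simp [mulVec_mulVec]
    · change (A.valᵀ *ᵥ ((A⁻¹).valᵀ *ᵥ p.2)) i = p.2 i
      rw [mulVec_mulVec, ← transpose_mul]
      simp
  right_inv p := by
    ext i
    · simp [mulVec_mulVec]
    · change ((A⁻¹).valᵀ *ᵥ (A.valᵀ *ᵥ p.2)) i = p.2 i
      rw [mulVec_mulVec, ← transpose_mul]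
      simp

/-- The action as a homomorphism. -/
def hyHom : (Matrix (Fin 3) (Fin 3) F)ˣ →*
    (((Fin 3 → F) × (Fin 3 → F)) ≃ₗ[F] ((Fin 3 → F) × (Fin 3 → F))) where
  toFun := hy
  map_one' := by
    ext p : 1
    change ((1 : Matrix (Fin 3) (Fin 3) F) *ᵥ p.1,
      ((1 : (Matrix (Fin 3) (Fin 3) F)ˣ)⁻¹).valᵀ *ᵥ p.2) = p
    simp
  map_mul' A B := by
    ext p : 1
    change ((A.val * B.val) *ᵥ p.1, ((A * B)⁻¹).valᵀ *ᵥ p.2)
      = (A.val *ᵥ (B.val *ᵥ p.1), (A⁻¹).valᵀ *ᵥ ((B⁻¹).valᵀ *ᵥ p.2))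
    rw [mulVec_mulVec, mulVec_mulVec, ← transpose_mul, _root_.mul_inv_rev, Units.val_mul]

theorem hy_mem {P : QuadraticForm F ((Fin 3 → F) × (Fin 3 → F))}
    (hP : ∀ a b, P (a, b) = ∑ i, a i * b i) (A : (Matrix (Fin 3) (Fin 3) F)ˣ) :
    hyHom A ∈ OV P := by
  rintro ⟨a, b⟩
  change P (A.val *ᵥ a, (A⁻¹).valᵀ *ᵥ b) = P (a, b)
  rw [hP, hP]
  have h1 : (A.val *ᵥ a) ⬝ᵥ ((A⁻¹).valᵀ *ᵥ b) = a ⬝ᵥ b := by
    rw [dotProduct_comm, mulVec_transpose, ← dotProduct_mulVec, mulVec_mulVec]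
    rw [dotProduct_comm]
    simp
  exact h1

theorem nd_hyp {P : QuadraticForm F ((Fin 3 → F) × (Fin 3 → F))}
    (hP : ∀ a b, P (a, b) = ∑ i, a i * b i) : ND P := by
  rintro ⟨a, b⟩ h
  have hpol : ∀ a' b' : Fin 3 → F, QuadraticMap.polar P (a, b) (a', b')
      = ∑ i, a i * b' i + ∑ i, a' i * b i := by
    intro a' b'
    unfold QuadraticMap.polar
    rw [Prod.mk_add_mk, hP, hP, hP, ← Finset.sum_sub_distrib, ← Finset.sum_sub_distrib,
      ← Finset.sum_add_distrib]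
    refine Finset.sum_congr rfl fun i _ => ?_
    simp only [Pi.add_apply]
    ring
  ext i
  · have := h (0, Pi.single i 1)
    rw [hpol] at this
    simpa [Pi.single_apply] using this
  · have := h (Pi.single i 1, 0)
    rw [hpol] at this
    simpa [Pi.single_apply] using this

end

theorem ot8 (hd : OhydStmt) (hb : OhybStmt) (ht : OtrStmt) : Ot8Stmt := by
  intro F V _ _ _ _ _ Q hND h2 h7
  obtain ⟨W, hW, hW0⟩ := hd F V Q 3 hND (by omega)
  obtain ⟨ι, hι⟩ := hb F V Q 3 W hND hW hW0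
  intro d _ hO
  have hPf : ∀ a b, (Q.comp ι) (a, b) = ∑ i, a i * b i := fun a b => hι a b
  obtain ⟨r, hr⟩ := ht F _ V (Q.comp ι) Q ι (nd_hyp hPf) (fun u => rfl) d hO
  have : CharP F 2 := by
    exact (CharP.charP_iff_prime_eq_zero Nat.prime_two).2 (by exact_mod_cast h2)
  let φ : ZMod 2 →+* F := ZMod.castHom (dvd_refl 2) F
  let Ψ : (Matrix (Fin 3) (Fin 3) (ZMod 2))ˣ →*
      (((Fin 3 → F) × (Fin 3 → F)) ≃ₗ[F] ((Fin 3 → F) × (Fin 3 → F))) :=
    hyHom.comp (Units.map (φ.mapMatrix (m := Fin 3)).toMonoidHom)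
  have hΨ : ∀ A, Ψ A ∈ OV (Q.comp ι) := fun A => hy_mem hPf _
  have hit : ∀ n : ℕ, (eng (Ψ uy))^[n] (Ψ e0) = Ψ ((eng uy)^[n] e0) := by
    intro n
    induction n with
    | zero => rfl
    | succ n ih =>
      rw [Function.iterate_succ_apply', Function.iterate_succ_apply', ih]
      simp [eng, map_mul, map_inv]
  have hy' : Ψ uy ∈ OmV (Q.comp ι) := by
    have h1 := Subgroup.commutator_mem_commutator (hΨ ua) (hΨ ub)
    have h2 : Ψ uy = Ψ ua * Ψ ub * (Ψ ua)⁻¹ * (Ψ ub)⁻¹ := by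
      rw [uyc]
      simp only [map_mul, map_inv]
    rw [h2]
    exact h1
  obtain ⟨c, hc⟩ := hr (Ψ e0) (hΨ _) (Ψ uy) hy'
  rw [hit, hit] at hc
  set M := (eng uy)^[r + d] e0 with hM
  set M' := (eng uy)^[r] e0 with hM'
  have hent : ∀ i j, φ (M.val i j) = c * φ (M'.val i j) := by
    intro i j
    have h1 := hc (Pi.single j 1, 0)
    have h2 := congrFun (congrArg Prod.fst h1) i
    have h3 : ∀ A : (Matrix (Fin 3) (Fin 3) (ZMod 2))ˣ,
        ((Ψ A) (Pi.single j 1, 0)).1 i = φ (A.val i j) := by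
      intro A
      change ((φ.mapMatrix A.val) *ᵥ (Pi.single j 1)) i = φ (A.val i j)
      simp
    rw [h3] at h2
    rw [h2]
    change c * ((Ψ M') (Pi.single j 1, 0)).1 i = _
    rw [h3]
  have hφ : Function.Injective φ := φ.injective
  have h01 : ∀ x : ZMod 2, x = 0 ∨ x = 1 := by decide +kernel
  have hne : ∀ A : (Matrix (Fin 3) (Fin 3) (ZMod 2))ˣ, ∃ i j, A.val i j = 1 := by
    intro A
    by_contra hcon
    push Not at hcon
    have : A.val = 0 := by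
      ext i j
      exact (h01 _).resolve_right (hcon i j)
    exact A.ne_zero this
  have hMM : M = M' := by
    obtain ⟨i, j, hij⟩ := hne M'
    have h1 := hent i j
    rw [hij, map_one, mul_one] at h1
    have hc1 : c = 1 := by
      rcases h01 (M.val i j) with h0 | h0
      · rw [h0, map_zero] at h1
        obtain ⟨k, l, hkl⟩ := hne M
        have h3 := hent k l
        rw [hkl, map_one, ← h1, zero_mul] at h3
        exact absurd h3 one_ne_zero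
      · rw [h0, map_one] at h1
        exact h1.symm
    apply Units.ext
    ext k l
    have h3 := hent k l
    rw [hc1, one_mul] at h3
    exact hφ h3
  exact per_main hMM

theorem otwo (hu : Od2uStmt) (hl : Od2lStmt) : OtwoStmt := by
  intro F V _ _ _ _ _ Q k hND h7 h2 hy
  set N := Module.finrank F V with hN
  set j := Nat.log 2 ((N - 1) / 2) with hj
  have hpos : (N - 1) / 2 ≠ 0 := by omega
  have h1 : 2 ^ j ≤ (N - 1) / 2 := Nat.pow_log_le_self 2 hpos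
  have h3 : (N - 1) / 2 < 2 ^ (j + 1) := Nat.lt_pow_succ_log_self (by norm_num) _
  have hj1 : 1 ≤ j := by
    have : 2 ≤ (N - 1) / 2 := by omega
    exact (Nat.le_log_iff_pow_le (by norm_num) hpos).2 (by simpa using this)
  have h4 : 2 ≤ 2 ^ j := by
    calc 2 = 2 ^ 1 := by norm_num
      _ ≤ 2 ^ j := Nat.pow_le_pow_right (by norm_num) hj1
  rw [pow_succ] at h3
  have h5 : 2 * 2 ^ j < N := by omega
  have h6 : N ≤ 4 * 2 ^ j := by omega
  exact hl F V Q (2 ^ j) k hND h2 h4 h5 (hu F V Q j k hND h2 hj1 h5 h6 hy)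

end Pool.Agent.Eng.H56
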